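import Pool.Agent.P.MP_647b44_gt.Main

/-! A closed Jacobi diagram with an orientation-reversing automorphism is zero over the
integers modulo AS and IHX. -/

namespace Pool.Agent.Results.MP_647b44_gt.OddSymmetric

open Pool.Agent.P.MP_647b44_gt

theorem result {V : Type*} [Fintype V] [DecidableEq V] (D : Diagram V) (π : Equiv.Perm V)
    (g : V → Equiv.Perm (Fin 3)) (hD : move (Equiv.prodShear π g) D = D)
    (hg : ∏ v, Equiv.Perm.sign (g v) = -1) :
    FreeAbelianGroup.of D ∈ AddSubgroup.closure (rel V) :=
  main D π g hD hg

end Pool.Agent.Results.MP_647b44_gt.OddSymmetric
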